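import Pool.Agent.X26.LF.Stm

set_option autoImplicit false

namespace Pool.Agent.X160.LFb

open Pool.Agent.X26.LF Finset

open Classical in
theorem B1 (hCNT : S_CNT) (m p N : ℕ) [Fact p.Prime] (u v : Fin m → ℤ) (A : Finset (ZMod p))
    (s : ZMod p) (hm : 1 ≤ m) (hNP : NP u v p) (hF : Free v p A) (ι : Fin m ↪ Fin N)
    (K L : Finset (Fin m)) (a : Fin m → ZMod p) (κ : Fin m → Fin N)
    (ha : ∀ k ∈ K, a k ∈ A) :
    p ^ 2 * (univ.filter fun x : Fin N → ZMod p => ∑ j, (u j : ZMod p) * x (ι j) = s ∧
      ∑ k ∈ K, (v k : ZMod p) * a k + ∑ k ∈ L, (v k : ZMod p) * x (κ k) = 1).card ≤ p ^ N := by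
  set c : Fin N → ZMod p := fun i => ∑ j, if ι j = i then (u j : ZMod p) else 0 with hc
  set d : Fin N → ZMod p := fun i => ∑ k ∈ L, if κ k = i then (v k : ZMod p) else 0 with hd
  have hcx : ∀ x : Fin N → ZMod p, ∑ i, c i * x i = ∑ j, (u j : ZMod p) * x (ι j) := by
    intro x
    simp only [hc, Finset.sum_mul]
    rw [Finset.sum_comm]
    refine Finset.sum_congr rfl fun j _ => ?_
    simp
  have hdx : ∀ x : Fin N → ZMod p, ∑ i, d i * x i = ∑ k ∈ L, (v k : ZMod p) * x (κ k) := by
    intro x
    simp only [hd, Finset.sum_mul]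
    rw [Finset.sum_comm]
    refine Finset.sum_congr rfl fun j _ => ?_
    simp
  have hcι : ∀ j, c (ι j) = (u j : ZMod p) := by
    intro j
    simp only [hc, ι.injective.eq_iff]
    simp
  have hc0 : c ≠ 0 := by
    intro h
    have h1 := hcι ⟨0, hm⟩
    rw [h] at h1
    exact hNP.1 _ h1.symm
  have hfil : (univ.filter fun x : Fin N → ZMod p => ∑ j, (u j : ZMod p) * x (ι j) = s ∧
      ∑ k ∈ K, (v k : ZMod p) * a k + ∑ k ∈ L, (v k : ZMod p) * x (κ k) = 1) =
      (univ.filter fun x : Fin N → ZMod p => ∑ i, c i * x i = s ∧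
        ∑ i, d i * x i = 1 - ∑ k ∈ K, (v k : ZMod p) * a k) := by
    refine Finset.filter_congr fun x _ => ?_
    rw [hcx, hdx]
    refine and_congr Iff.rfl ⟨fun h => by rw [← h]; ring, fun h => by rw [h]; ring⟩
  by_cases hdep : ∃ l, d = fun i => l * c i
  · obtain ⟨l, hl⟩ := hdep
    by_cases hl0 : l = 0
    · have hemp : (univ.filter fun x : Fin N → ZMod p => ∑ j, (u j : ZMod p) * x (ι j) = s ∧
          ∑ k ∈ K, (v k : ZMod p) * a k + ∑ k ∈ L, (v k : ZMod p) * x (κ k) = 1) = ∅ := by
        refine Finset.filter_eq_empty_iff.2 ?_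
        rintro x - ⟨-, h2⟩
        have h3 : ∑ k ∈ L, (v k : ZMod p) * x (κ k) = 0 := by
          rw [← hdx, hl, hl0]; simp
        rw [h3, add_zero] at h2
        exact hF K a ha h2
      rw [hemp]; simp
    · exfalso
      have hdι : ∀ j, d (ι j) = l * (u j : ZMod p) := fun j => by rw [hl]; simp only [hcι]
      have hex : ∀ j, ∃ k ∈ L, κ k = ι j := by
        intro j
        by_contra h
        push Not at h
        have h1 : d (ι j) = 0 := by
          simp only [hd]
          exact Finset.sum_eq_zero fun k hk => if_neg (h k hk)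
        rw [hdι] at h1
        exact (mul_ne_zero hl0 (hNP.1 j)) h1
      choose f hfL hf using hex
      have hfi : Function.Injective f := by
        intro i j hij
        have h1 := hf i
        rw [hij, hf j] at h1
        exact (ι.injective h1).symm
      have hfb : Function.Bijective f := Finite.injective_iff_bijective.1 hfi
      let σ := Equiv.ofBijective f hfb
      have hκ : ∀ i j, κ (f i) = κ (f j) → i = j := by
        intro i j h
        rw [hf, hf] at h
        exact ι.injective h
      have hv : ∀ j, (v (f j) : ZMod p) = l * (u j : ZMod p) := by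
        intro j
        rw [← hdι]
        simp only [hd]
        rw [Finset.sum_eq_single (f j)]
        · rw [if_pos (hf j)]
        · intro k _ hk
          obtain ⟨i, rfl⟩ := hfb.2 k
          rw [if_neg]
          intro h
          rw [hf] at h
          exact hk (by rw [ι.injective h])
        · intro h
          exact absurd (hfL j) h
      refine hNP.2 σ.symm l fun i => ?_
      have h1 := hv (σ.symm i)
      have h2 : f (σ.symm i) = i := σ.apply_symm_apply i
      rw [h2] at h1
      exact h1
  · have h := (hCNT p N c d s (1 - ∑ k ∈ K, (v k : ZMod p) * a k) hc0).2 hdep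
    rw [hfil]
    exact h.le

end Pool.Agent.X160.LFb
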