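import Pool.Agent.X160.LFb.B1

set_option autoImplicit false

namespace Pool.Agent.X160.LFb

open Pool.Agent.X26.LF Finset

open Classical in
theorem cardSig (m p N : ℕ) (A : Finset (ZMod p)) :
    Fintype.card (Σ k0 : Fin m, ({k : Fin m // k ≠ k0} → (↥A ⊕ Fin N))) =
      m * (A.card + N) ^ (m - 1) := by
  rw [Fintype.card_sigma]
  have h : ∀ k0 : Fin m, Fintype.card ({k : Fin m // k ≠ k0} → (↥A ⊕ Fin N)) =
      (A.card + N) ^ (m - 1) := by
    intro k0
    have h1 : Fintype.card {k : Fin m // k ≠ k0} = m - 1 := by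
      rw [Fintype.card_subtype, Finset.filter_ne', Finset.card_erase_of_mem (Finset.mem_univ _),
        Finset.card_univ, Fintype.card_fin]
    rw [Fintype.card_fun, h1, Fintype.card_sum, Fintype.card_coe, Fintype.card_fin]
  rw [Finset.sum_congr rfl fun k0 _ => h k0, Finset.sum_const, Finset.card_univ,
    Fintype.card_fin, smul_eq_mul]

open Classical in
theorem t_BAD : S_BAD := by
  intro hCNT m p N _ u v A s hm hNP hF
  let T := (Fin m ↪ Fin N) × Fin m × Finset (Fin m) × Finset (Fin m) ×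
    (Σ k0 : Fin m, ({k : Fin m // k ≠ k0} → (↥A ⊕ Fin N)))
  let av : T → Fin m → ZMod p := fun t k =>
    if h : k ≠ t.2.2.2.2.1 then Sum.elim (fun a : A => (a : ZMod p)) (fun _ => 0)
      (t.2.2.2.2.2 ⟨k, h⟩) else 0
  let kv : T → Fin m → Fin N := fun t k =>
    if h : k ≠ t.2.2.2.2.1 then Sum.elim (fun _ => t.1 t.2.1) id (t.2.2.2.2.2 ⟨k, h⟩)
      else t.1 t.2.1
  let B : T → Finset (Fin N → ZMod p) := fun t =>
    if (∀ k ∈ t.2.2.1, av t k ∈ A) then
      univ.filter fun x : Fin N → ZMod p => ∑ j, (u j : ZMod p) * x (t.1 j) = s ∧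
        ∑ k ∈ t.2.2.1, (v k : ZMod p) * av t k +
          ∑ k ∈ t.2.2.2.1, (v k : ZMod p) * x (kv t k) = 1
    else ∅
  have hB : ∀ t, p ^ 2 * (B t).card ≤ p ^ N := by
    intro t
    by_cases h : ∀ k ∈ t.2.2.1, av t k ∈ A
    · simp only [B, if_pos h]
      exact B1 hCNT m p N u v A s hm hNP hF t.1 t.2.2.1 t.2.2.2.1 (av t) (kv t) h
    · simp only [B, if_neg h]
      simp
  have hsub : (univ.filter fun x : Fin N → ZMod p => ∃ ι : Fin m ↪ Fin N,
      ∑ j, (u j : ZMod p) * x (ι j) = s ∧ ∃ j, Bad v p A x (ι j)) ⊆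
      (univ : Finset T).biUnion B := by
    intro x hx
    obtain ⟨ι, hs, j, K, L, a, κ, hKL, ha, ⟨k0, hk0, hκ⟩, hrel⟩ := (Finset.mem_filter.1 hx).2
    let c : {k : Fin m // k ≠ k0} → (↥A ⊕ Fin N) := fun k =>
      if h : k.1 ∈ K then Sum.inl ⟨a k.1, ha _ h⟩ else Sum.inr (κ k.1)
    let t : T := (ι, j, K, L, ⟨k0, c⟩)
    have hav : ∀ k ∈ K, av t k = a k := by
      intro k hk
      have hne : k ≠ k0 := by
        rintro rfl
        exact Finset.disjoint_left.1 hKL hk hk0
      simp only [av, t, c]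
      rw [dif_pos hne, dif_pos hk]
      rfl
    have hkv : ∀ k ∈ L, kv t k = κ k := by
      intro k hk
      by_cases hne : k ≠ k0
      · have hkK : k ∉ K := fun h => Finset.disjoint_left.1 hKL h hk
        simp only [kv, t, c]
        rw [dif_pos hne, dif_neg hkK]
        rfl
      · push Not at hne
        simp only [kv, t]
        rw [dif_neg (by simpa using hne), hne, hκ]
    refine Finset.mem_biUnion.2 ⟨t, Finset.mem_univ _, ?_⟩
    have hA : ∀ k ∈ t.2.2.1, av t k ∈ A := fun k hk => by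
      rw [hav k hk]; exact ha k hk
    simp only [B, if_pos hA]
    refine Finset.mem_filter.2 ⟨Finset.mem_univ _, hs, ?_⟩
    rw [← hrel]
    exact congrArg₂ (· + ·) (Finset.sum_congr rfl fun k hk => by rw [hav k hk])
      (Finset.sum_congr rfl fun k hk => by rw [hkv k hk])
  have hT : Fintype.card T ≤ m ^ 2 * 4 ^ m * (A.card + N) ^ (2 * m - 1) := by
    have h1 : Fintype.card T = N.descFactorial m * (m * (2 ^ m * (2 ^ m *
        (m * (A.card + N) ^ (m - 1))))) := by
      simp only [T]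
      rw [Fintype.card_prod, Fintype.card_prod, Fintype.card_prod, Fintype.card_prod,
        Fintype.card_embedding_eq, Fintype.card_finset, Fintype.card_fin, Fintype.card_fin,
        cardSig]
    rw [h1]
    have h2 : N.descFactorial m ≤ (A.card + N) ^ m :=
      (Nat.descFactorial_le_pow N m).trans (Nat.pow_le_pow_left (by omega) m)
    have h3 : (4 : ℕ) ^ m = 2 ^ m * 2 ^ m := by rw [← Nat.mul_pow]
    have h4 : (A.card + N) ^ (2 * m - 1) = (A.card + N) ^ m * (A.card + N) ^ (m - 1) := by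
      rw [← pow_add]; congr 1; omega
    rw [h3, h4]
    calc N.descFactorial m * (m * (2 ^ m * (2 ^ m * (m * (A.card + N) ^ (m - 1)))))
        ≤ (A.card + N) ^ m * (m * (2 ^ m * (2 ^ m * (m * (A.card + N) ^ (m - 1))))) :=
          Nat.mul_le_mul_right _ h2
      _ = _ := by ring
  calc p ^ 2 * _ ≤ p ^ 2 * ∑ t : T, (B t).card :=
        Nat.mul_le_mul_left _ ((Finset.card_le_card hsub).trans Finset.card_biUnion_le)
    _ = ∑ t : T, p ^ 2 * (B t).card := Finset.mul_sum _ _ _
    _ ≤ ∑ _t : T, p ^ N := Finset.sum_le_sum fun t _ => hB t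
    _ = Fintype.card T * p ^ N := by rw [Finset.sum_const, Finset.card_univ, smul_eq_mul]
    _ ≤ _ := Nat.mul_le_mul_right _ hT

end Pool.Agent.X160.LFb
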